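import Pool.Agent.Helper78.ZM.Stmts

/-!
Project ZM, module Z3: the comparison lemma.
-/

set_option autoImplicit false

open MeasureTheory Filter Topology Set
open scoped ContDiff Real ENNReal ComplexOrder Manifold

namespace Pool.Agent.Helper82.ZM

open Pool.Agent.Helper78.ZM

lemma two_le_infty : (2 : WithTop ℕ∞) ≤ ((⊤ : ℕ∞) : WithTop ℕ∞) :=
  WithTop.coe_le_coe.mpr (le_top : (2 : ℕ∞) ≤ ⊤)

/-- smooth cut-off functions -/
lemma cutoff {n : ℕ} {T U : Set (Cn n)} (hT : IsCompact T) (hU : IsOpen U) (hTU : T ⊆ U) :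
    ∃ κ : Cn n → ℝ, ContDiff ℝ ∞ κ ∧ HasCompactSupport κ ∧ tsupport κ ⊆ U ∧
      (∀ x ∈ T, ∀ᶠ y in 𝓝 x, κ y = 1) ∧ ∀ x, 0 ≤ κ x ∧ κ x ≤ 1 := by
  obtain ⟨L, hL, hTL, hLU⟩ := exists_compact_between hT hU hTU
  obtain ⟨f, h1, h2, h3⟩ := exists_contMDiffMap_one_nhds_of_subset_interior
    (n := (⊤ : ℕ∞)) 𝓘(ℝ, Cn n) hT.isClosed hTL
  have hsupp : tsupport (f : Cn n → ℝ) ⊆ L := by
    apply closure_minimal _ hL.isClosed
    intro x hx
    by_contra hcon
    exact hx (h2 x hcon)
  refine ⟨f, f.contMDiff.contDiff, ?_, hsupp.trans hLU, ?_, fun x => h3 x⟩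
  · exact hL.of_isClosed_subset (isClosed_tsupport _) hsupp
  · intro x hx
    rw [eventually_nhdsSet_iff_forall] at h1
    exact h1 x hx

/-- `|x|²` -/
noncomputable def qq (n : ℕ) (y : Cn n) : ℝ := ∑ j, ‖y j‖ ^ 2

lemma qq_smooth (n : ℕ) : ContDiff ℝ ∞ (qq n) := by
  unfold qq
  apply ContDiff.sum
  intro j _
  exact (contDiff_apply ℝ ℂ j).norm_sq ℝ

lemma levi_cont (h0 : Z0Stmt) {n : ℕ} {f : Cn n → ℝ} (hf : ContDiff ℝ ∞ f) (j k : Fin n) :
    Continuous (fun x => levi f x j k) := by
  have := h0.2.2.2.2.1 n univ f isOpen_univ hf.contDiffOn j k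
  rwa [← continuousOn_univ]

lemma mixD_cont (h0 : Z0Stmt) {n : ℕ} {u : Fin n → Cn n → ℝ} (hu : ∀ i, ContDiff ℝ ∞ (u i)) :
    Continuous (fun x => mixD (fun j => levi (u j) x)) := by
  unfold mixD
  refine continuous_finsetSum _ fun σ _ => continuous_finsetSum _ fun τ _ => ?_
  refine continuous_const.mul ?_
  exact continuous_finsetProd _ fun i _ => levi_cont h0 (hu i) _ _

lemma levi_const (n : ℕ) (c : ℝ) (x : Cn n) : levi (fun _ : Cn n => c) x = 0 := by
  ext j k
  simp [levi, D2]

lemma levi_zero_of_locConst (h0 : Z0Stmt) {n : ℕ} {f : Cn n → ℝ} {x : Cn n}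
    (h : ∀ᶠ y in 𝓝 x, f y = f x) : levi f x = 0 := by
  rw [h0.1 n f (fun _ => f x) x h, levi_const]

lemma mixD_update_zero (h1 : Z1Stmt) {n : ℕ} (H : Fin n → Matrix (Fin n) (Fin n) ℂ) (i : Fin n) :
    mixD (Function.update H i 0) = 0 := by
  have h := h1.2.1 n H i 0 0 1
  simp only [smul_zero, add_zero, one_mul] at h
  exact left_eq_add.mp h

lemma levi_update {n : ℕ} (u : Fin n → Cn n → ℝ) (i : Fin n) (κ : Cn n → ℝ) (x : Cn n) :
    (fun j => levi (Function.update u i κ j) x) =
      Function.update (fun j => levi (u j) x) i (levi κ x) := by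
  ext1 j
  by_cases h : j = i
  · subst h; simp
  · simp [Function.update_of_ne h]

/-- uniform bound for the entries of the Hessian on a compact set -/
lemma levi_bound (h0 : Z0Stmt) {n : ℕ} {f : Cn n → ℝ} (hf : ContDiff ℝ ∞ f) {K : Set (Cn n)}
    (hK : IsCompact K) : ∃ c : ℝ, 0 ≤ c ∧ ∀ x ∈ K, ∀ j k, ‖levi f x j k‖ ≤ c := by
  have h : ∀ j k : Fin n, ∃ c : ℝ, ∀ x ∈ K, ‖levi f x j k‖ ≤ c := fun j k =>
    hK.exists_bound_of_continuousOn (levi_cont h0 hf j k).continuousOn
  choose c hc using h
  refine ⟨∑ j, ∑ k, |c j k|, by positivity, ?_⟩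
  intro x hx j k
  refine (hc j k x hx).trans ((le_abs_self _).trans ?_)
  refine le_trans ?_ (Finset.single_le_sum (f := fun j => ∑ k, |c j k|)
    (fun i _ => by positivity) (Finset.mem_univ j))
  exact Finset.single_le_sum (f := fun k => |c j k|) (fun i _ => by positivity) (Finset.mem_univ k)

/-- the basic estimate: integration by parts and the bound of the mixed discriminant -/
lemma ibp_bound (h0 : Z0Stmt) (h1 : Z1Stmt) (h2 : Z2Stmt) {n : ℕ} (κ : Cn n → ℝ)
    (hκ : ContDiff ℝ ∞ κ) (hκc : HasCompactSupport κ) {K : Set (Cn n)} (hK : IsCompact K)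
    (hKκ : ∀ x ∉ K, ∀ᶠ y in 𝓝 x, κ y = κ x) {c : ℝ} (hc : ∀ x ∈ K, ∀ j k, ‖levi κ x j k‖ ≤ c)
    (u : Fin n → Cn n → ℝ) (hu : ∀ i, ContDiff ℝ ∞ (u i)) (i : Fin n)
    (hpsd : ∀ j, j ≠ i → ∀ x ∈ K, (levi (u j) x).PosSemidef) {M : ℝ}
    (hM : ∀ x ∈ K, |u i x| ≤ M) :
    ‖∫ x, (κ x : ℂ) * mixD (fun j => levi (u j) x)‖ ≤
      n * c * M * ∫ x in K, (mixD (fun j => levi (Function.update u i (qq n) j) x)).re := by
  rw [h2 n u hu κ hκ hκc i]
  refine (norm_integral_le_integral_norm _).trans ?_
  have hup : ∀ i', ContDiff ℝ ∞ (Function.update u i κ i') := by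
    intro i'
    by_cases h : i' = i
    · subst h; simpa using hκ
    · rw [Function.update_of_ne h]; exact hu i'
  have hupq : ∀ i', ContDiff ℝ ∞ (Function.update u i (qq n) i') := by
    intro i'
    by_cases h : i' = i
    · subst h; simpa using qq_smooth n
    · rw [Function.update_of_ne h]; exact hu i'
  have hzero : ∀ x ∉ K, ‖(u i x : ℂ) * mixD (fun j => levi (Function.update u i κ j) x)‖ = 0 := by
    intro x hx
    rw [levi_update, levi_zero_of_locConst h0 (hKκ x hx), mixD_update_zero h1, mul_zero, norm_zero]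
  rw [← setIntegral_eq_integral_of_forall_compl_eq_zero hzero, ← integral_const_mul]
  have hcont1 : Continuous (fun x => ‖(u i x : ℂ) * mixD (fun j => levi (Function.update u i κ j) x)‖) := by
    have h3 : Continuous (fun x => (u i x : ℂ)) := Complex.continuous_ofReal.comp (hu i).continuous
    exact (h3.mul (mixD_cont h0 hup)).norm
  have hcont2 : Continuous (fun x => (mixD (fun j => levi (Function.update u i (qq n) j) x)).re) :=
    Complex.continuous_re.comp (mixD_cont h0 hupq)
  apply setIntegral_mono_on (hcont1.continuousOn.integrableOn_compact hK)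
    ((hcont2.continuousOn.integrableOn_compact hK).const_mul _) hK.measurableSet
  intro x hx
  have hherm : (levi κ x).IsHermitian := h0.2.2.1 n κ x (hκ.of_le two_le_infty).contDiffAt
  have h4 := h1.2.2.2.1 n (fun j => levi (u j) x) i (levi κ x) c
    (fun j hj => hpsd j hj x hx) hherm (hc x hx)
  rw [norm_mul, Complex.norm_real, Real.norm_eq_abs, levi_update, levi_update]
  have hq1 : levi (qq n) x = 1 := h0.2.2.2.1 n x
  rw [hq1]
  have hM0 : 0 ≤ M := (abs_nonneg _).trans (hM x hx)
  calc |u i x| * ‖mixD (Function.update (fun j => levi (u j) x) i (levi κ x))‖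
      ≤ M * (n * c * (mixD (Function.update (fun j => levi (u j) x) i 1)).re) :=
        mul_le_mul (hM x hx) h4 (norm_nonneg _) hM0
    _ = n * c * M * (mixD (Function.update (fun j => levi (u j) x) i 1)).re := by ring

/-- Chern-Levine-Nirenberg estimate -/
lemma cln (h0 : Z0Stmt) (h1 : Z1Stmt) (h2 : Z2Stmt) {n : ℕ} (S : Set (Cn n)) :
    ∀ p : ℕ, ∀ K : Set (Cn n), IsCompact K → K ⊆ interior S → ∃ C : ℝ, 0 ≤ C ∧
      ∀ (A : Finset (Fin n)) (u : Fin n → Cn n → ℝ), A.card = p → (∀ i, i ∉ A → u i = qq n) →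
        (∀ i, ContDiff ℝ ∞ (u i)) → (∀ i, ∀ x ∈ S, (levi (u i) x).PosSemidef) →
        ∀ M : ℝ, 0 ≤ M → (∀ i ∈ A, ∀ x ∈ S, |u i x| ≤ M) →
          ∫ x in K, (mixD (fun j => levi (u j) x)).re ≤ C * M ^ p := by
  intro p
  induction p with
  | zero =>
    intro K hK hKS
    refine ⟨n.factorial * (volume K).toReal, by positivity, ?_⟩
    intro A u hA hu _ _ M _ _
    have hA' : A = ∅ := Finset.card_eq_zero.mp hA
    have he : ∀ x, (mixD (fun j => levi (u j) x)).re = n.factorial := by
      intro x
      have e1 : (fun j => levi (u j) x) = fun _ => (1 : Matrix (Fin n) (Fin n) ℂ) := by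
        ext1 j
        rw [hu j (by rw [hA']; exact Finset.notMem_empty j)]
        exact h0.2.2.2.1 n x
      rw [e1, h1.1, Matrix.det_one, mul_one, Complex.natCast_re]
    simp only [he]
    rw [setIntegral_const, smul_eq_mul, pow_zero, mul_one, mul_comm]
    exact le_of_eq rfl
  | succ p ih =>
    intro K hK hKS
    obtain ⟨κ, hκ, hκc, hκS, hκ1, hκ01⟩ := cutoff hK isOpen_interior hKS
    obtain ⟨C, hC0, hC⟩ := ih (tsupport κ) hκc hκS
    obtain ⟨c, hc0, hc⟩ := levi_bound h0 hκ hκc
    refine ⟨n * c * C, by positivity, ?_⟩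
    intro A u hA hu hsm hpsd M hM0 hM
    obtain ⟨i, hi⟩ : A.Nonempty := by
      rw [← Finset.card_pos, hA]; omega
    have hSint : tsupport κ ⊆ S := hκS.trans interior_subset
    have hmix : ∀ x ∈ S, 0 ≤ (mixD (fun j => levi (u j) x)).re := fun x hx =>
      (h1.2.2.1 n (fun j => levi (u j) x) (fun j => hpsd j x hx)).1
    have hcont : Continuous (fun x => (mixD (fun j => levi (u j) x)).re) :=
      Complex.continuous_re.comp (mixD_cont h0 hsm)
    -- first step
    have s1 : ∫ x in K, (mixD (fun j => levi (u j) x)).re ≤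
        ∫ x, κ x * (mixD (fun j => levi (u j) x)).re := by
      rw [← integral_indicator hK.measurableSet]
      apply integral_mono_of_nonneg
      · filter_upwards with x
        apply indicator_nonneg
        intro y hy
        exact hmix y (interior_subset (hKS hy))
      · exact (hκ.continuous.mul hcont).integrable_of_hasCompactSupport hκc.mul_right
      · filter_upwards with x
        by_cases hx : x ∈ K
        · rw [indicator_of_mem hx, (hκ1 x hx).self_of_nhds, one_mul]
        · rw [indicator_of_notMem hx]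
          by_cases hx2 : x ∈ tsupport κ
          · exact mul_nonneg (hκ01 x).1 (hmix x (hSint hx2))
          · rw [image_eq_zero_of_notMem_tsupport hx2, zero_mul]
    have s2 : ∫ x, κ x * (mixD (fun j => levi (u j) x)).re =
        (∫ x, (κ x : ℂ) * mixD (fun j => levi (u j) x)).re := by
      have hint : Integrable (fun x => (κ x : ℂ) * mixD (fun j => levi (u j) x)) := by
        apply Continuous.integrable_of_hasCompactSupport
        · exact (Complex.continuous_ofReal.comp hκ.continuous).mul (mixD_cont h0 hsm)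
        · exact (hκc.comp_left Complex.ofReal_zero).mul_right
      have := integral_re hint
      simp only [RCLike.re_eq_complex_re, Complex.re_ofReal_mul] at this
      exact this
    have s3 := ibp_bound h0 h1 h2 κ hκ hκc hκc (fun x hx => by
        have : ∀ᶠ y in 𝓝 x, y ∉ tsupport κ := (isClosed_tsupport κ).isOpen_compl.mem_nhds hx
        filter_upwards [this] with y hy
        rw [image_eq_zero_of_notMem_tsupport hy, image_eq_zero_of_notMem_tsupport hx])
      hc u hsm i (fun j _ x hx => hpsd j x (hSint hx)) (fun x hx => hM i hi x (hSint hx))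
    have s4 := hC (A.erase i) (Function.update u i (qq n)) (by
        rw [Finset.card_erase_of_mem hi, hA]; omega) (by
        intro j hj
        by_cases hji : j = i
        · subst hji; simp
        · rw [Function.update_of_ne hji]
          apply hu
          intro hjA
          exact hj (Finset.mem_erase.mpr ⟨hji, hjA⟩)) (by
        intro j
        by_cases hji : j = i
        · subst hji; simpa using qq_smooth n
        · rw [Function.update_of_ne hji]; exact hsm j) (by
        intro j x hx
        by_cases hji : j = i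
        · subst hji
          rw [Function.update_self]
          have : levi (qq n) x = 1 := h0.2.2.2.1 n x
          rw [this]
          exact Matrix.PosSemidef.one
        · rw [Function.update_of_ne hji]; exact hpsd j x hx) M hM0 (by
        intro j hj x hx
        obtain ⟨hji, hjA⟩ := Finset.mem_erase.mp hj
        rw [Function.update_of_ne hji]
        exact hM j hjA x hx)
    calc ∫ x in K, (mixD (fun j => levi (u j) x)).re
        ≤ (∫ x, (κ x : ℂ) * mixD (fun j => levi (u j) x)).re := s1.trans (le_of_eq s2)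
      _ ≤ ‖∫ x, (κ x : ℂ) * mixD (fun j => levi (u j) x)‖ := Complex.re_le_norm _
      _ ≤ n * c * M * ∫ x in tsupport κ, (mixD (fun j => levi (Function.update u i (qq n) j) x)).re := s3
      _ ≤ n * c * M * (C * M ^ p) := mul_le_mul_of_nonneg_left s4 (by positivity)
      _ = n * c * C * M ^ (p + 1) := by ring

lemma maDensity_eq (h1 : Z1Stmt) {n : ℕ} (f : Cn n → ℝ) (x : Cn n) :
    maDensity f x = (2 / π) ^ n * (mixD (fun _ : Fin n => levi f x)).re := by
  rw [h1.1, maDensity]
  rw [show ((n.factorial : ℂ) * (levi f x).det).re = n.factorial * (levi f x).det.re by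
    rw [← Complex.ofReal_natCast, Complex.re_ofReal_mul]]
  ring

/-- the telescoping functions -/
noncomputable def w {n : ℕ} (F G : Cn n → ℝ) (i : Fin n) : Fin n → Cn n → ℝ :=
  Function.update (fun j => if j < i then F else G) i (fun y => F y + (-1) * G y)

lemma w_smooth {n : ℕ} {F G : Cn n → ℝ} (hF : ContDiff ℝ ∞ F) (hG : ContDiff ℝ ∞ G) (i j : Fin n) :
    ContDiff ℝ ∞ (w F G i j) := by
  unfold w
  by_cases h : j = i
  · subst h
    rw [Function.update_self]
    exact hF.add (contDiff_const.mul hG)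
  · rw [Function.update_of_ne h]
    by_cases h' : j < i
    · simpa [h'] using hF
    · simpa [h'] using hG

lemma telescope (h0 : Z0Stmt) (h1 : Z1Stmt) {n : ℕ} {F G : Cn n → ℝ} (hF : ContDiff ℝ ∞ F)
    (hG : ContDiff ℝ ∞ G) (x : Cn n) :
    mixD (fun _ : Fin n => levi F x) - mixD (fun _ : Fin n => levi G x) =
      ∑ i, mixD (fun j => levi (w F G i j) x) := by
  rw [h1.1, h1.1, ← mul_sub, h1.2.2.2.2]
  apply Finset.sum_congr rfl
  intro i _
  congr 1
  unfold w
  rw [levi_update]
  have e1 : levi (fun y => F y + (-1) * G y) x = levi F x - levi G x := by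
    rw [h0.2.1 n F G x (-1) (hF.of_le two_le_infty).contDiffAt (hG.of_le two_le_infty).contDiffAt]
    rw [Complex.ofReal_neg, Complex.ofReal_one, neg_one_smul, sub_eq_add_neg]
  rw [e1]
  congr 1
  ext1 j
  by_cases h' : j < i <;> simp [h']

lemma diff_bound (h0 : Z0Stmt) (h1 : Z1Stmt) (h2 : Z2Stmt) {n : ℕ} (χ : Cn n → ℝ)
    (hχ : ContDiff ℝ ∞ χ) (hχc : HasCompactSupport χ) {K : Set (Cn n)} (hK : IsCompact K)
    (hKχ : ∀ x ∉ K, ∀ᶠ y in 𝓝 x, χ y = χ x) {c : ℝ} (hc : ∀ x ∈ K, ∀ j k, ‖levi χ x j k‖ ≤ c)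
    {F G : Cn n → ℝ} (hF : ContDiff ℝ ∞ F) (hG : ContDiff ℝ ∞ G)
    (hFp : ∀ x ∈ K, (levi F x).PosSemidef) (hGp : ∀ x ∈ K, (levi G x).PosSemidef) {ε : ℝ}
    (hε : ∀ x ∈ K, |F x - G x| ≤ ε) :
    |(∫ x, χ x * maDensity F x) - ∫ x, χ x * maDensity G x| ≤
      (2 / π) ^ n * ∑ i : Fin n, n * c * ε * ∫ x in K, (mixD (fun j =>
        levi (Function.update (fun j => if j < i then F else G) i (qq n) j) x)).re := by
  have hcF : Continuous (fun x => mixD (fun _ : Fin n => levi F x)) := mixD_cont h0 (fun _ => hF)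
  have hcG : Continuous (fun x => mixD (fun _ : Fin n => levi G x)) := mixD_cont h0 (fun _ => hG)
  have hcw : ∀ i : Fin n, Continuous (fun x => mixD (fun j => levi (w F G i j) x)) :=
    fun i => mixD_cont h0 (w_smooth hF hG i)
  have hχC : Continuous (fun x => (χ x : ℂ)) := Complex.continuous_ofReal.comp hχ.continuous
  have hχCc : HasCompactSupport (fun x => (χ x : ℂ)) := hχc.comp_left Complex.ofReal_zero
  have hiF : Integrable (fun x => (χ x : ℂ) * mixD (fun _ : Fin n => levi F x)) :=
    (hχC.mul hcF).integrable_of_hasCompactSupport hχCc.mul_right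
  have hiG : Integrable (fun x => (χ x : ℂ) * mixD (fun _ : Fin n => levi G x)) :=
    (hχC.mul hcG).integrable_of_hasCompactSupport hχCc.mul_right
  have hiw : ∀ i : Fin n, Integrable (fun x => (χ x : ℂ) * mixD (fun j => levi (w F G i j) x)) :=
    fun i => (hχC.mul (hcw i)).integrable_of_hasCompactSupport hχCc.mul_right
  have e1 : ∀ H : Cn n → ℝ, Integrable (fun x => (χ x : ℂ) * mixD (fun _ : Fin n => levi H x)) →
      ∫ x, χ x * maDensity H x =
        (2 / π) ^ n * (∫ x, (χ x : ℂ) * mixD (fun _ : Fin n => levi H x)).re := by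
    intro H hH
    have := integral_re hH
    simp only [RCLike.re_eq_complex_re, Complex.re_ofReal_mul] at this
    rw [← this, ← integral_const_mul]
    congr 1
    ext1 x
    rw [maDensity_eq h1]
    ring
  rw [e1 F hiF, e1 G hiG, ← mul_sub, ← Complex.sub_re, ← integral_sub hiF hiG, abs_mul,
    abs_of_nonneg (by positivity)]
  apply mul_le_mul_of_nonneg_left _ (by positivity)
  have e2 : ∫ x, ((χ x : ℂ) * mixD (fun _ : Fin n => levi F x) -
      (χ x : ℂ) * mixD (fun _ : Fin n => levi G x)) =
      ∑ i : Fin n, ∫ x, (χ x : ℂ) * mixD (fun j => levi (w F G i j) x) := by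
    rw [← integral_finsetSum _ (fun i _ => hiw i)]
    congr 1
    ext1 x
    rw [← mul_sub, telescope h0 h1 hF hG, Finset.mul_sum]
  rw [e2]
  refine (Complex.abs_re_le_norm _).trans ((norm_sum_le _ _).trans (Finset.sum_le_sum ?_))
  intro i _
  have h3 := ibp_bound h0 h1 h2 χ hχ hχc hK hKχ hc (w F G i) (w_smooth hF hG i) i (by
    intro j hj x hx
    unfold w
    rw [Function.update_of_ne hj]
    by_cases h' : j < i
    · simpa [h'] using hFp x hx
    · simpa [h'] using hGp x hx) (M := ε) (by
    intro x hx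
    unfold w
    rw [Function.update_self]
    have := hε x hx
    rwa [neg_one_mul, ← sub_eq_add_neg])
  unfold w at h3
  rw [Function.update_idem] at h3
  exact h3

theorem z3 (h0 : Z0Stmt) (h1 : Z1Stmt) (h2 : Z2Stmt) : Z3Stmt := by
  intro n χ hχ hχc S hS hloc
  obtain ⟨K, hKdef⟩ : ∃ K : Set (Cn n), K = {x | ¬ ∀ᶠ y in 𝓝 x, χ y = χ x} := ⟨_, rfl⟩
  have hKcl : IsClosed K := by
    rw [← isOpen_compl_iff, isOpen_iff_mem_nhds]
    intro x hx
    have hx' : ∀ᶠ y in 𝓝 x, χ y = χ x := by
      by_contra hcon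
      exact hx (by rw [hKdef]; exact hcon)
    have hx2 := hx'.eventually_nhds
    filter_upwards [hx2, hx'] with y h3 hy hyK
    rw [hKdef] at hyK
    apply hyK
    filter_upwards [h3] with z hz
    rw [hz, hy]
  have hKS : K ⊆ interior S := by
    intro x hx
    by_contra hcon
    rw [hKdef] at hx
    exact hx (hloc x hcon)
  have hKS' : K ⊆ S := hKS.trans interior_subset
  have hK : IsCompact K := hS.of_isClosed_subset hKcl hKS'
  have hKχ : ∀ x ∉ K, ∀ᶠ y in 𝓝 x, χ y = χ x := by
    intro x hx
    by_contra hcon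
    exact hx (by rw [hKdef]; exact hcon)
  obtain ⟨c, hc0, hc⟩ := levi_bound h0 hχ hK
  obtain ⟨C, hC0, hC⟩ := cln h0 h1 h2 S (n - 1) K hK hKS
  classical
  refine ⟨if S.Nonempty then (2 / π) ^ n * (n * (n * c * C)) else 0, ?_, ?_⟩
  · split_ifs
    · positivity
    · exact le_refl _
  intro V hV hχV hSV f g hf hg hfp hgp M ε hε hfM hgM hfg
  -- localisation
  obtain ⟨θ, hθ, hθc, hθV, hθ1, hθ01⟩ := cutoff (hχc.isCompact.union hS) hV
    (union_subset hχV hSV)
  have hsm : ∀ h : Cn n → ℝ, ContDiffOn ℝ ∞ h V → ContDiff ℝ ∞ (fun x => θ x * h x) := by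
    intro h hh
    rw [contDiff_iff_contDiffAt]
    intro x
    by_cases hx : x ∈ V
    · exact hθ.contDiffAt.mul (hh.contDiffAt (hV.mem_nhds hx))
    · have hx2 : x ∉ tsupport θ := fun h' => hx (hθV h')
      have h4 : ∀ᶠ y in 𝓝 x, y ∉ tsupport θ := (isClosed_tsupport θ).isOpen_compl.mem_nhds hx2
      have h5 : (fun x => θ x * h x) =ᶠ[𝓝 x] fun _ => 0 := by
        filter_upwards [h4] with y hy
        rw [image_eq_zero_of_notMem_tsupport hy, zero_mul]
      exact contDiffAt_const.congr_of_eventuallyEq h5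
  have hlev : ∀ h : Cn n → ℝ, ∀ x ∈ tsupport χ ∪ S, levi (fun x => θ x * h x) x = levi h x := by
    intro h x hx
    apply h0.1
    filter_upwards [hθ1 x hx] with y hy
    rw [hy, one_mul]
  have hma : ∀ h : Cn n → ℝ, ∫ x, χ x * maDensity h x =
      ∫ x, χ x * maDensity (fun x => θ x * h x) x := by
    intro h
    congr 1
    ext1 x
    by_cases hx : x ∈ tsupport χ
    · rw [maDensity, maDensity, hlev h x (Or.inl hx)]
    · rw [image_eq_zero_of_notMem_tsupport hx, zero_mul, zero_mul]
  have hval : ∀ h : Cn n → ℝ, ∀ x ∈ S, θ x * h x = h x := by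
    intro h x hx
    rw [(hθ1 x (Or.inr hx)).self_of_nhds, one_mul]
  rw [hma f, hma g]
  have hb := diff_bound h0 h1 h2 χ hχ hχc hK hKχ hc (hsm f hf) (hsm g hg)
    (fun x hx => by rw [hlev f x (Or.inr (hKS' hx))]; exact hfp x (hSV (hKS' hx)))
    (fun x hx => by rw [hlev g x (Or.inr (hKS' hx))]; exact hgp x (hSV (hKS' hx)))
    (ε := ε) (fun x hx => by
      rw [hval f x (hKS' hx), hval g x (hKS' hx)]; exact hfg x (hKS' hx))
  refine hb.trans ?_
  split_ifs with hne
  · obtain ⟨s, hs⟩ := hne
    have hM0 : 0 ≤ M := (abs_nonneg _).trans (hfM s hs)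
    rw [show (2 / π) ^ n * ((n : ℝ) * (n * c * C)) * M ^ (n - 1) * ε =
      (2 / π) ^ n * ((n : ℝ) * (n * c * C) * M ^ (n - 1) * ε) by ring]
    apply mul_le_mul_of_nonneg_left _ (by positivity)
    have hsum : ∑ i : Fin n, n * c * ε * ∫ x in K, (mixD (fun j =>
        levi (Function.update (fun j => if j < i then (fun x => θ x * f x) else
          (fun x => θ x * g x)) i (qq n) j) x)).re ≤ ∑ i : Fin n, n * c * ε * (C * M ^ (n - 1)) := by
      apply Finset.sum_le_sum
      intro i _
      apply mul_le_mul_of_nonneg_left _ (by positivity)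
      apply hC (Finset.univ.erase i)
      · rw [Finset.card_erase_of_mem (Finset.mem_univ i), Finset.card_univ, Fintype.card_fin]
      · intro j hj
        have : j = i := by
          by_contra hcon
          exact hj (Finset.mem_erase.mpr ⟨hcon, Finset.mem_univ j⟩)
        subst this
        rw [Function.update_self]
      · intro j
        by_cases hji : j = i
        · subst hji; simpa using qq_smooth n
        · rw [Function.update_of_ne hji]
          by_cases h' : j < i
          · simpa [h'] using hsm f hf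
          · simpa [h'] using hsm g hg
      · intro j x hx
        by_cases hji : j = i
        · subst hji
          rw [Function.update_self]
          have : levi (qq n) x = 1 := h0.2.2.2.1 n x
          rw [this]
          exact Matrix.PosSemidef.one
        · rw [Function.update_of_ne hji]
          by_cases h' : j < i
          · simp only [h', if_true]
            rw [hlev f x (Or.inr hx)]
            exact hfp x (hSV hx)
          · simp only [h', if_false]
            rw [hlev g x (Or.inr hx)]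
            exact hgp x (hSV hx)
      · exact hM0
      · intro j hj x hx
        obtain ⟨hji, _⟩ := Finset.mem_erase.mp hj
        rw [Function.update_of_ne hji]
        by_cases h' : j < i
        · simp only [h', if_true]
          rw [hval f x hx]
          exact hfM x hx
        · simp only [h', if_false]
          rw [hval g x hx]
          exact hgM x hx
    refine hsum.trans (le_of_eq ?_)
    rw [Finset.sum_const, Finset.card_univ, Fintype.card_fin, nsmul_eq_mul]
    ring
  · have hKe : K = ∅ := by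
      rw [not_nonempty_iff_eq_empty] at hne
      rw [hne] at hKS'
      exact subset_empty_iff.mp hKS'
    rw [hKe]
    simp

end Pool.Agent.Helper82.ZM
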